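import Mathlib
import Pool.Agent.H113R3.DH.PtD

set_option autoImplicit false

open Polynomial Filter Topology Set

namespace Pool.Agent.Results.MP_8f2e1c_an.AlmostAllDegreesCompositions

/-- The polynomial as a self-map of the plane. -/
def map (T : ℂ[X]) : ℂ → ℂ := fun w : ℂ => T.eval w

/-- The orbit of `z` escapes to infinity. -/
def Escapes (T : ℂ[X]) (z : ℂ) : Prop :=
  Tendsto (fun k : ℕ => ‖(map T)^[k] z‖) atTop atTop

/-- The orbit of `z` is attracted by a sink (attracting periodic point) of `T`. -/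
def Attracted (T : ℂ[X]) (z : ℂ) : Prop :=
  ∃ n : ℕ, 0 < n ∧ ∃ x : ℂ, (map T)^[n] x = x ∧ ‖deriv ((map T)^[n]) x‖ < 1 ∧
    Tendsto (fun k : ℕ => (map T)^[n * k] z) atTop (𝓝 x)

/-- `T` is hyperbolic: every critical point in the plane escapes, i.e. is attracted by the
superattracting fixed point `∞`, or is attracted by a sink in the plane. For a polynomial of degree
at least two, as a rational map, this says that all critical points on the sphere are attracted by
sinks, as `∞` is itself a superattracting fixed point. -/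
def Hyperbolic (T : ℂ[X]) : Prop :=
  ∀ c : ℂ, (derivative T).eval c = 0 → Escapes T c ∨ Attracted T c

theorem of_hyp {T : ℂ[X]} (hT : Pool.Agent.H113R3.DH.Hyp T) : Hyperbolic T := by
  intro c hc
  rcases hT c hc with h | ⟨x, h1, h2, h3⟩
  · exact Or.inl h
  · refine Or.inr ⟨1, one_pos, x, h1, ?_, ?_⟩
    · rw [Function.iterate_one]; exact h2
    · simp only [one_mul]; exact h3

/-- A critical point mapped onto a fixed point which is not attracting. -/
theorem not_hyp {T : ℂ[X]} {c : ℂ} (h0 : (derivative T).eval 0 = 0) (h1 : T.eval 0 = c)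
    (h2 : T.eval c = c) (h3 : 1 ≤ ‖(derivative T).eval c‖) : ¬ Hyperbolic T := by
  intro h
  have hit : ∀ j : ℕ, (map T)^[j] c = c := fun j =>
    Function.iterate_fixed (show (map T) c = c from h2) j
  have hit0 : ∀ j : ℕ, 1 ≤ j → (map T)^[j] 0 = c := by
    intro j hj
    obtain ⟨i, rfl⟩ : ∃ i, j = i + 1 := ⟨j - 1, by omega⟩
    rw [Function.iterate_succ_apply]
    rw [show (map T) 0 = c from h1]
    exact hit i
  rcases h 0 h0 with h4 | ⟨N, hN, x, h4, h5, h6⟩
  · unfold Escapes at h4
    obtain ⟨j, hj, hj1⟩ := ((h4.eventually_gt_atTop ‖c‖).and (eventually_ge_atTop 1)).exists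
    rw [hit0 j hj1] at hj
    exact lt_irrefl _ hj
  · have h7 : Tendsto (fun k : ℕ => (map T)^[N * k] 0) atTop (𝓝 c) := by
      apply tendsto_const_nhds.congr'
      filter_upwards [eventually_ge_atTop 1] with j hj
      exact (hit0 _ (Nat.mul_pos hN hj)).symm
    have h8 : x = c := tendsto_nhds_unique h6 h7
    rw [h8] at h5
    have h9 : HasDerivAt (map T) ((derivative T).eval c) c := T.hasDerivAt c
    have h11 : (map T) c = c := h2
    have h10 := (HasDerivAt.iterate c h9 h11 N).deriv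
    rw [h10, norm_pow] at h5
    exact absurd h5 (not_lt.2 (one_le_pow₀ h3))

/-- Hyperbolicity of `P (z ^ n * A z) + t` for fixed polynomials `A ≠ 0`, `P` nonconstant and a
fixed complex number `t`, as `n` varies.

Suppose `P 0 + t` is in the open unit disc, or outside the closed one and not a zero of `A`.
(1) If no critical value `v` of `P` has `|v + t| = 1`, unless `A (v + t) = 0`, then
`P (z ^ n * A z) + t` is hyperbolic for all large `n`.
(2) If no `v + t`, `v` a critical value of `P`, is a root of unity, unless `A (v + t) = 0`, then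
`P (z ^ n * A z) + t` is hyperbolic for all `n` outside a set of natural density zero.

(3) On the other hand, if `P 0 + t` is a simple zero of `A` outside the closed unit disc and
`P' 0 ≠ 0`, then `P (z ^ n * A z) + t` is not hyperbolic for any large `n`. -/
theorem result (A P : ℂ[X]) (hA : A ≠ 0) (hP : 1 ≤ P.natDegree) (t : ℂ) :
    ((‖P.eval 0 + t‖ < 1 ∨ (1 < ‖P.eval 0 + t‖ ∧ A.eval (P.eval 0 + t) ≠ 0)) →
      ((∀ ξ : ℂ, (derivative P).eval ξ = 0 →
          ‖P.eval ξ + t‖ ≠ 1 ∨ A.eval (P.eval ξ + t) = 0) →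
        ∃ n₀ : ℕ, ∀ n : ℕ, n₀ ≤ n → Hyperbolic (P.comp (X ^ n * A) + C t)) ∧
      ((∀ ξ : ℂ, (derivative P).eval ξ = 0 →
          (∀ k : ℕ, 0 < k → (P.eval ξ + t) ^ k ≠ 1) ∨ A.eval (P.eval ξ + t) = 0) →
        Tendsto (fun N : ℕ =>
          ((({n : ℕ | ¬ Hyperbolic (P.comp (X ^ n * A) + C t)} ∩ Iio N).ncard : ℕ) : ℝ) / N)
          atTop (𝓝 0))) ∧
    (1 < ‖P.eval 0 + t‖ → A.eval (P.eval 0 + t) = 0 → (derivative A).eval (P.eval 0 + t) ≠ 0 →
      (derivative P).eval 0 ≠ 0 →
      ∃ n₀ : ℕ, ∀ n : ℕ, n₀ ≤ n → ¬ Hyperbolic (P.comp (X ^ n * A) + C t)) := by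
  refine ⟨fun hcen => ⟨fun h => ?_, fun h => ?_⟩, fun h1 h2 h3 h4 => ?_⟩
  · obtain ⟨n₀, hn₀⟩ := eventually_atTop.1 (Pool.Agent.H113R3.DH.Pt.all_large hA hP hcen h)
    exact ⟨n₀, fun n hn => of_hyp (hn₀ n hn)⟩
  · have h5 := Pool.Agent.H113R3.DH.Pt.almost_all hA hP hcen fun ξ hξ => (h ξ hξ).symm
    refine squeeze_zero (fun N => by positivity) (fun N => ?_) h5
    have h6 : ({n : ℕ | ¬ Hyperbolic (P.comp (X ^ n * A) + C t)} ∩ Iio N).ncard ≤
        ({n : ℕ | ¬ Pool.Agent.H113R3.DH.Hyp (P.comp (X ^ n * A) + C t)} ∩ Iio N).ncard := by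
      apply Set.ncard_le_ncard
      · rintro n ⟨hn1, hn2⟩
        exact ⟨fun h7 => hn1 (of_hyp h7), hn2⟩
      · exact (Set.finite_Iio N).subset Set.inter_subset_right
    have h7 : ((({n : ℕ | ¬ Hyperbolic (P.comp (X ^ n * A) + C t)} ∩ Iio N).ncard : ℕ) : ℝ) ≤
        ((({n : ℕ | ¬ Pool.Agent.H113R3.DH.Hyp (P.comp (X ^ n * A) + C t)} ∩ Iio N).ncard : ℕ) : ℝ) := by
      exact_mod_cast h6
    exact div_le_div_of_nonneg_right h7 (Nat.cast_nonneg _)
  · set c := P.eval 0 + t with hc
    have h5 : 0 < ‖(derivative A).eval c * (derivative P).eval 0‖ :=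
      norm_pos_iff.2 (mul_ne_zero h3 h4)
    have h6 : Tendsto (fun n : ℕ => ‖c‖ ^ n * ‖(derivative A).eval c * (derivative P).eval 0‖)
        atTop atTop := (tendsto_pow_atTop_atTop_of_one_lt h1).atTop_mul_const h5
    obtain ⟨n₀, hn₀⟩ := eventually_atTop.1
      ((h6.eventually_ge_atTop 1).and (eventually_ge_atTop 2))
    refine ⟨n₀, fun n hn => ?_⟩
    obtain ⟨h7, h8⟩ := hn₀ n hn
    apply not_hyp (c := c)
    · rw [derivative_add, derivative_C, add_zero, derivative_comp, derivative_mul,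
        derivative_X_pow]
      simp [show n - 1 ≠ 0 by omega, show n ≠ 0 by omega]
    · simp [eval_comp, show n ≠ 0 by omega, hc]
    · rw [eval_add, eval_comp, eval_mul, h2, mul_zero, eval_C]
    · have h9 : (derivative (P.comp (X ^ n * A) + C t)).eval c =
          c ^ n * ((derivative A).eval c * (derivative P).eval 0) := by
        rw [derivative_add, derivative_C, add_zero, derivative_comp, derivative_mul,
          derivative_X_pow]
        simp only [eval_mul, eval_add, eval_comp, eval_pow, eval_X, eval_C, h2, mul_zero, zero_add]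
        ring
      rw [h9, norm_mul, norm_pow]
      exact h7

end Pool.Agent.Results.MP_8f2e1c_an.AlmostAllDegreesCompositions
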