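import Mathlib
import Pool.Agent.H462R2.AP4

set_option autoImplicit false

open Set Filter Topology

namespace Pool.Agent.Results.MP_8f2e1c_an.AlmostAllPowers

/-- `P / Q` is in lowest terms and every critical point (point of the Riemann sphere where the map
is not locally injective) has an orbit converging to an attracting periodic cycle. This is word
for word the condition of the frozen statement `S05373`. -/
def Hyperbolic (P Q : Polynomial ℂ) : Prop :=
  IsCoprime P Q ∧ ∃ f : OnePoint ℂ → OnePoint ℂ, Continuous f ∧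
    (∀ z : ℂ, Q.eval z ≠ 0 →
      f (OnePoint.some z) = OnePoint.some (P.eval z / Q.eval z)) ∧
    ∀ c : OnePoint ℂ, (¬ ∃ U ∈ nhds c, Set.InjOn f U) →
      ∃ z : OnePoint ℂ, ∃ n : ℕ, 0 < n ∧ f^[n] z = z ∧
        (∃ U ∈ nhds z, ∀ w ∈ U,
          Filter.Tendsto (fun k : ℕ => f^[n * k] w) Filter.atTop (nhds z)) ∧
        Filter.Tendsto (fun k : ℕ => f^[n * k] c) Filter.atTop (nhds z)

/-- `(p, q)` are the homogeneous coordinates of a marked value of `P / Q`: its value at `0`, at `∞`
or at a finite critical point (a zero of `P' Q - P Q'`). -/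
def Marked (P Q : Polynomial ℂ) (p q : ℂ) : Prop :=
  (p = P.coeff 0 ∧ q = Q.coeff 0) ∨
    (p = P.coeff (max P.natDegree Q.natDegree) ∧ q = Q.coeff (max P.natDegree Q.natDegree)) ∨
    ∃ y : ℂ, (Polynomial.derivative P * Q - P * Polynomial.derivative Q).eval y = 0 ∧
      p = P.eval y ∧ q = Q.eval y

/-- Let `P / Q` be a nonconstant rational map in lowest terms which does not map the unit circle
into itself and none of whose marked values is a root of unity.  Then the rational maps
`P(z ^ n) / Q(z ^ n)` are hyperbolic for all `n` outside a set of density zero. -/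
theorem result (P Q : Polynomial ℂ) (hc : IsCoprime P Q) (hD : 1 ≤ max P.natDegree Q.natDegree)
    (hne : ∃ u : ℂ, ‖u‖ = 1 ∧ ‖P.eval u‖ ≠ ‖Q.eval u‖)
    (hmark : ∀ p q : ℂ, Marked P Q p q → ∀ k : ℕ, 0 < k → p ^ k ≠ q ^ k) :
    Tendsto (fun N : ℕ => ((({n : ℕ | 2 ≤ n ∧ ¬ Hyperbolic (Polynomial.expand ℂ n P)
      (Polynomial.expand ℂ n Q)} ∩ Iio N).ncard : ℕ) : ℝ) / N) atTop (𝓝 0) := by
  refine Pool.Agent.H462R2.AP.density_hyp hc rfl hD hne ?_
  rintro ⟨p, q⟩ hx k hk
  refine hmark p q ?_ k hk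
  unfold Pool.Agent.H462R2.AP.marks' at hx
  rcases hx with h | ⟨y, hy, hy'⟩
  · simp only [Set.mem_insert_iff, Set.mem_singleton_iff, Prod.mk.injEq] at h
    rcases h with ⟨h1, h2⟩ | ⟨h1, h2⟩
    · left
      rw [h1, h2, Polynomial.coeff_zero_eq_eval_zero, Polynomial.coeff_zero_eq_eval_zero]
      exact ⟨rfl, rfl⟩
    · exact Or.inr (Or.inl ⟨h1, h2⟩)
  · right; right
    simp only [Prod.mk.injEq] at hy'
    exact ⟨y, hy, hy'.1.symm, hy'.2.symm⟩

end Pool.Agent.Results.MP_8f2e1c_an.AlmostAllPowers
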