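import Mathlib
import Pool.Agent.H113R3.DH.RatG

set_option autoImplicit false

open Set Filter Topology MeasureTheory

namespace Pool.Agent.Results.MP_8f2e1c_an.CoarseDensityCompositions

/-- `P / Q` is in lowest terms and every critical point (point of the Riemann sphere where the map
is not locally injective) has an orbit converging to an attracting periodic cycle. This is word
for word the condition of the frozen statement `S05373`. -/
def Hyperbolic (P Q : Polynomial ℂ) : Prop :=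
  IsCoprime P Q ∧ ∃ f : OnePoint ℂ → OnePoint ℂ, Continuous f ∧
    (∀ z : ℂ, Q.eval z ≠ 0 →
      f (OnePoint.some z) = OnePoint.some (P.eval z / Q.eval z)) ∧
    ∀ c : OnePoint ℂ, (¬ ∃ U ∈ nhds c, Set.InjOn f U) →
      ∃ z : OnePoint ℂ, ∃ n : ℕ, 0 < n ∧ f^[n] z = z ∧
        (∃ U ∈ nhds z, ∀ w ∈ U,
          Filter.Tendsto (fun k : ℕ => f^[n * k] w) Filter.atTop (nhds z)) ∧
        Filter.Tendsto (fun k : ℕ => f^[n * k] c) Filter.atTop (nhds z)

/-- `A` has degree `k`, coefficients of modulus at most `M` and a leading coefficient of modulus at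
least `1 / M`. -/
def Bounded (k : ℕ) (M : ℝ) (A : Polynomial ℂ) : Prop :=
  A.natDegree = k ∧ (∀ i, ‖A.coeff i‖ ≤ M) ∧ 1 / M ≤ ‖A.leadingCoeff‖

/-- The data of a family: `Ψ = A / B` with `A`, `B` of degrees `k₁`, `k₂`, and `Φ = P / Q` of degree
`m`, both in lowest terms, with `B 0 ≠ 0` and with `Φ 0`, `Φ ∞` finite (`Q 0 ≠ 0`, `Q` of degree
`m`); `M` bounds all coefficients and the inverses of the leading coefficients of `A`, `B`, `Q` and
of `Q 0`. As `M` grows these sets exhaust all such data. -/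
def Data (k₁ k₂ m : ℕ) (M : ℝ) (A B P Q : Polynomial ℂ) : Prop :=
  Bounded k₁ M A ∧ Bounded k₂ M B ∧ IsCoprime (Polynomial.X * A) B ∧
    IsCoprime P Q ∧ P.natDegree ≤ m ∧ (∀ i, ‖P.coeff i‖ ≤ M) ∧ Bounded m M Q ∧
    1 / M ≤ ‖Q.coeff 0‖

/-- The polynomial `B ^ m * P (z ^ n * A / B)`, for `P` of degree at most `m`. -/
noncomputable def lift (m n : ℕ) (A B P : Polynomial ℂ) : Polynomial ℂ :=
  ∑ i ∈ Finset.range (m + 1), Polynomial.C (P.coeff i) * (Polynomial.X ^ n * A) ^ i * B ^ (m - i)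

/-- The numerator of the rational map `Φ (z ^ n * Ψ z) + t`; its denominator is `lift m n A B Q`. -/
noncomputable def num (m n : ℕ) (A B P Q : Polynomial ℂ) (t : ℂ) : Polynomial ℂ :=
  lift m n A B P + Polynomial.C t * lift m n A B Q

/-- Hyperbolicity in the families of rational maps `Φ (z ^ n * Ψ z) + t`, `Φ = P / Q`, `Ψ = A / B`,
uniformly in `Φ` and `Ψ`. For all degrees, all bounds `M` and all large `n`:

(0) the maps `Φ (z ^ n * Ψ z) + t` have degree `m (n + k₁)`;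

(1) the set of all complex `t` for which `Φ (z ^ n * Ψ z) + t` is not hyperbolic has area at most
`C log n / n`;

(2) there is `t` with `|t| ≤ C log n / n` for which `Φ (z ^ n * Ψ z) + t` is hyperbolic;

here `C = 46080 (k₁ + k₂ + m + 2) (k₁ + k₂ + 2)`. -/
theorem result (k₁ k₂ m : ℕ) (hm : 1 ≤ m) (M : ℝ) (hM : 1 ≤ M) : ∃ n₀ : ℕ, ∀ n : ℕ, n₀ ≤ n →
    ∀ A B P Q : Polynomial ℂ, Data k₁ k₂ m M A B P Q →
      (∀ t : ℂ, max (num m n A B P Q t).natDegree (lift m n A B Q).natDegree = m * (n + k₁) ∧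
        ∀ z : ℂ, B.eval z ≠ 0 → (lift m n A B Q).eval z ≠ 0 →
          (num m n A B P Q t).eval z / (lift m n A B Q).eval z =
            P.eval (z ^ n * A.eval z / B.eval z) / Q.eval (z ^ n * A.eval z / B.eval z) + t) ∧
      volume {t : ℂ | ¬ Hyperbolic (num m n A B P Q t) (lift m n A B Q)} ≤
        ENNReal.ofReal (46080 * (k₁ + k₂ + m + 2) * (k₁ + k₂ + 2) * (Real.log n / n)) ∧
      ∃ t : ℂ, ‖t‖ ≤ 46080 * (k₁ + k₂ + m + 2) * (k₁ + k₂ + 2) * (Real.log n / n) ∧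
        Hyperbolic (num m n A B P Q t) (lift m n A B Q) := by
  obtain ⟨n₀, h⟩ := Pool.Agent.H113R3.DH.Rat.main_rat k₁ k₂ m hm M hM
  refine ⟨max n₀ (k₂ + 1), fun n hn A B P Q hd => ?_⟩
  obtain ⟨hA, hB, hAB, hPQ, hP, hPM, hQ, hQ0⟩ := hd
  have hQm : 1 / M ≤ ‖Q.coeff m‖ := by
    have := hQ.2.2
    rwa [Polynomial.leadingCoeff, hQ.1] at this
  have D : Pool.Agent.H113R3.DH.Rat.Dat k₁ k₂ m M A B P Q :=
    ⟨⟨hA.1, hA.2.1, hA.2.2⟩, ⟨hB.1, hB.2.1, hB.2.2⟩, hAB, hPQ, hP, hQ.1, hPM, hQ.2.1, hQ0, hQm⟩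
  have hn1 : n₀ ≤ n := le_trans (le_max_left _ _) hn
  have hn2 : k₂ + 1 ≤ n := le_trans (le_max_right _ _) hn
  obtain ⟨h1, t, h2, h3⟩ := h n hn1 A B P Q D
  refine ⟨fun s => ⟨Pool.Agent.H113R3.DH.Rat.degree_fam hM D (by omega) s, ?_⟩, h1, t, h2, h3⟩
  intro z hz hz'
  exact (Pool.Agent.H113R3.DH.Rat.eval_gen D hz hz').2

end Pool.Agent.Results.MP_8f2e1c_an.CoarseDensityCompositions
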