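import Mathlib
import Pool.Agent.H400R3.HI.Rat4

/-! Hyperbolicity of the rational maps `(P / Q) ∘ g^n`, for `g` a hyperbolic polynomial and `n`
large. -/

set_option autoImplicit false

open Filter Topology MeasureTheory

namespace Pool.Agent.Results.MP_8f2e1c_an.HighIterates

/-- `P / Q` is in lowest terms and every critical point (point of the Riemann sphere where the map
is not locally injective) has an orbit converging to an attracting periodic cycle. This is word
for word the condition of the frozen statement `S05373`. -/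
def Hyperbolic (P Q : Polynomial ℂ) : Prop :=
  IsCoprime P Q ∧ ∃ f : OnePoint ℂ → OnePoint ℂ, Continuous f ∧
    (∀ z : ℂ, Q.eval z ≠ 0 →
      f (OnePoint.some z) = OnePoint.some (P.eval z / Q.eval z)) ∧
    ∀ c : OnePoint ℂ, (¬ ∃ U ∈ nhds c, Set.InjOn f U) →
      ∃ z : OnePoint ℂ, ∃ n : ℕ, 0 < n ∧ f^[n] z = z ∧
        (∃ U ∈ nhds z, ∀ w ∈ U,
          Filter.Tendsto (fun k : ℕ => f^[n * k] w) Filter.atTop (nhds z)) ∧
        Filter.Tendsto (fun k : ℕ => f^[n * k] c) Filter.atTop (nhds z)

/-- The polynomial as a self-map of the plane. -/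
def map (T : Polynomial ℂ) : ℂ → ℂ := fun w : ℂ => T.eval w

/-- `a` is a sink (attracting periodic point) of the polynomial `T`. -/
def IsSink (T : Polynomial ℂ) (a : ℂ) : Prop :=
  ∃ p : ℕ, 0 < p ∧ (map T)^[p] a = a ∧ ‖deriv ((map T)^[p]) a‖ < 1

/-- The orbit of `z` under the polynomial `T` escapes to infinity or converges to the cycle of a
sink of `T`. -/
def Tame (T : Polynomial ℂ) (z : ℂ) : Prop :=
  Tendsto (fun k : ℕ => ‖(map T)^[k] z‖) atTop atTop ∨
    ∃ p : ℕ, 0 < p ∧ ∃ x : ℂ, (map T)^[p] x = x ∧ ‖deriv ((map T)^[p]) x‖ < 1 ∧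
      Tendsto (fun k : ℕ => (map T)^[p * k] z) atTop (𝓝 x)

/-- The finite marked values of `P / Q` and `g` (for `deg P ≤ deg Q`): the value of `P / Q` at
infinity, its values at the zeros of `P' Q - P Q'` which are not poles, its values on the forward
orbits of the critical points of `g`, and its values at the sinks of `g`. -/
def Marked (P Q g : Polynomial ℂ) : Set ℂ :=
  {m | m = P.coeff Q.natDegree / Q.leadingCoeff ∨
    (∃ y : ℂ, Q.eval y ≠ 0 ∧
      (Polynomial.derivative P * Q - P * Polynomial.derivative Q).eval y = 0 ∧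
      m = P.eval y / Q.eval y) ∨
    (∃ (z : ℂ) (k : ℕ), (Polynomial.derivative g).eval z = 0 ∧ 1 ≤ k ∧
      Q.eval ((map g)^[k] z) ≠ 0 ∧ m = P.eval ((map g)^[k] z) / Q.eval ((map g)^[k] z)) ∨
    ∃ a : ℂ, IsSink g a ∧ m = P.eval a / Q.eval a}

/-- Let `g` be a polynomial of degree at least two all of whose critical points escape or are
attracted by sinks. (1) Let `P / Q` be in lowest terms with `deg P ≤ deg Q`, `1 ≤ deg Q`, without
poles at the sinks of `g`. If all its finite marked values escape or are attracted by sinks under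
`g`, then the rational map `P(g^n(z)) / Q(g^n(z))` is hyperbolic for all large `n`. (2) Let
`f = P / Q` be any rational map in lowest terms of degree at least one. Then for all but finitely
many `s` and, given `s`, for all `t` outside a meagre set, the composition of `g^n`, `f` and the
Möbius map `w ↦ w / (1 + s w) + t` is hyperbolic for all large `n`. (3) In particular this is true
for some `s`, `t` of modulus less than a given `ε > 0`. (4) If the points which neither escape nor
are attracted by a sink of `g` form a set of zero area, then (2) holds for almost every `t`. -/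
theorem result (g : Polynomial ℂ) (hg : 2 ≤ g.natDegree)
    (hyp : ∀ c : ℂ, (Polynomial.derivative g).eval c = 0 → Tame g c) (P Q : Polynomial ℂ)
    (hc : IsCoprime P Q) (hD : 1 ≤ max P.natDegree Q.natDegree) :
    (P.natDegree ≤ Q.natDegree → (∀ a : ℂ, IsSink g a → Q.eval a ≠ 0) →
      (∀ m ∈ Marked P Q g, Tame g m) →
      ∀ᶠ n : ℕ in atTop, Hyperbolic (P.comp (g.comp^[n] Polynomial.X))
        (Q.comp (g.comp^[n] Polynomial.X))) ∧
    (∀ᶠ s : ℂ in cofinite, ∀ᶠ t : ℂ in residual ℂ, ∀ᶠ n : ℕ in atTop,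
      Hyperbolic ((P + Polynomial.C t * (Q + Polynomial.C s * P)).comp
        (g.comp^[n] Polynomial.X))
        ((Q + Polynomial.C s * P).comp (g.comp^[n] Polynomial.X))) ∧
    (∀ ε : ℝ, 0 < ε → ∃ s t : ℂ, ‖s‖ < ε ∧ ‖t‖ < ε ∧ ∀ᶠ n : ℕ in atTop,
      Hyperbolic ((P + Polynomial.C t * (Q + Polynomial.C s * P)).comp
        (g.comp^[n] Polynomial.X))
        ((Q + Polynomial.C s * P).comp (g.comp^[n] Polynomial.X))) ∧
    (volume {z : ℂ | ¬ Tame g z} = 0 →
      ∀ᶠ s : ℂ in cofinite, ∀ᵐ t : ℂ, ∀ᶠ n : ℕ in atTop,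
        Hyperbolic ((P + Polynomial.C t * (Q + Polynomial.C s * P)).comp
          (g.comp^[n] Polynomial.X))
          ((Q + Polynomial.C s * P).comp (g.comp^[n] Polynomial.X))) := by
  refine ⟨fun hPQ hs hM => Pool.Agent.H400R3.HI.main' hg hyp hc hPQ ?_ hs hM,
    Pool.Agent.H400R3.HI.main_mob_res hg hyp hc hD,
    fun ε hε => Pool.Agent.H400R3.HI.main_mob_dense hg hyp hc hD hε,
    fun hvol => Pool.Agent.H400R3.HI.main_mob hg hyp hvol hc hD⟩
  rw [max_eq_right hPQ] at hD
  exact hD

end Pool.Agent.Results.MP_8f2e1c_an.HighIterates
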